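import Pool.Agent.H16.RF.BMS

set_option autoImplicit false

namespace H16.RF

open ZFSet (pair)
open MeasureTheory H14.ES H46.RF Set
open scoped ENNReal

/-- extension of a word -/
def wx {k : ℕ} (y : Fin k → Bool) : ℕ → Bool := fun i => if hi : i < k then y ⟨i, hi⟩ else false

def Dep (A : Set (ℕ → Bool)) (k : ℕ) : Prop := ∀ r r', (∀ i < k, r i = r' i) → (r ∈ A ↔ r' ∈ A)

open Classical in
/-- the words of `A` -/
noncomputable def wds (A : Set (ℕ → Bool)) (k : ℕ) : Finset (Fin k → Bool) :=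
  Finset.univ.filter fun y => wx y ∈ A

theorem mem_cyl_wx {k : ℕ} (y : Fin k → Bool) (r : ℕ → Bool) :
    r ∈ cyl (wx y) k ↔ (fun i : Fin k => r i) = y := by
  constructor
  · intro h
    funext i
    have := h i i.2
    unfold wx at this
    rwa [dif_pos i.2] at this
  · intro h i hi
    unfold wx
    rw [dif_pos hi, ← h]

theorem cyl_meas (r : ℕ → Bool) (k : ℕ) : MeasurableSet (cyl r k) := bms.2.2.2.2.2.1 r k

theorem decomp {A : Set (ℕ → Bool)} {k : ℕ} (hA : Dep A k) (V : Set (ℕ → Bool)) :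
    A ∩ V = ⋃ y ∈ wds A k, (cyl (wx y) k ∩ V) := by
  classical
  ext r
  simp only [mem_inter_iff, mem_iUnion, wds, Finset.mem_filter, Finset.mem_univ, true_and,
    exists_prop]
  constructor
  · rintro ⟨h1, h2⟩
    refine ⟨fun i : Fin k => r i, ?_, (mem_cyl_wx _ _).2 rfl, h2⟩
    refine (hA _ _ ?_).1 h1
    intro i hi
    show r i = if hi : i < k then r i else false
    rw [dif_pos hi]
  · rintro ⟨y, h1, h2, h3⟩
    exact ⟨(hA _ _ fun i hi => h2 i hi).2 h1, h3⟩

theorem mu_decomp {A : Set (ℕ → Bool)} {k : ℕ} (hA : Dep A k) {V : Set (ℕ → Bool)}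
    (hV : MeasurableSet V) : mu ℕ (A ∩ V) = ∑ y ∈ wds A k, mu ℕ (cyl (wx y) k ∩ V) := by
  rw [decomp hA, measure_biUnion_finset]
  · intro y _ y' _ hne
    rw [Function.onFun, Set.disjoint_left]
    rintro r ⟨h1, _⟩ ⟨h2, _⟩
    exact hne (((mem_cyl_wx y r).1 h1).symm.trans ((mem_cyl_wx y' r).1 h2))
  · exact fun y _ => (cyl_meas _ _).inter hV

theorem mu_decomp' {A : Set (ℕ → Bool)} {k : ℕ} (hA : Dep A k) :
    mu ℕ A = ∑ y ∈ wds A k, mu ℕ (cyl (wx y) k) := by
  have := mu_decomp hA MeasurableSet.univ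
  simpa using this

theorem half_of_dep {A U : Set (ℕ → Bool)} {k : ℕ} (hA : Dep A k) (hU : MeasurableSet U)
    (h : ∀ r ∈ A, mu ℕ (cyl r k) ≤ 2 * mu ℕ (cyl r k ∩ U)) : mu ℕ A ≤ 2 * mu ℕ (A ∩ U) := by
  classical
  rw [mu_decomp' hA, mu_decomp hA hU, Finset.mul_sum]
  apply Finset.sum_le_sum
  intro y hy
  apply h
  have := Finset.mem_filter.1 hy
  exact this.2

theorem cyl_congr {r r' : ℕ → Bool} {k : ℕ} (h : ∀ i < k, r i = r' i) : cyl r k = cyl r' k := by
  ext x
  constructor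
  · intro h1 i hi
    rw [h1 i hi, h i hi]
  · intro h1 i hi
    rw [h1 i hi, h i hi]

theorem dm2 : S_DM2 := by
  classical
  intro U hU σ s
  set Pk : (ℕ → Bool) → ℕ → Prop := fun r k => s ≤ k ∧ mu ℕ (cyl r k) ≤ 2 * mu ℕ (cyl r k ∩ U)
    with hPk
  have hPc : ∀ r r' k, (∀ i < k, r i = r' i) → (Pk r k ↔ Pk r' k) := by
    intro r r' k h
    simp only [hPk, cyl_congr h]
  set A : ℕ → Set (ℕ → Bool) := fun k => {r | r ∈ cyl σ s ∧ Pk r k ∧ ∀ j < k, ¬ Pk r j} with hA
  have hAd : ∀ k, Dep (A k) k := by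
    have h1 : ∀ k r r', (∀ i < k, r i = r' i) → r ∈ A k → r' ∈ A k := by
      rintro k r r' h ⟨h2, h3, h4⟩
      have hsk : s ≤ k := h3.1
      refine ⟨fun i hi => ?_, (hPc r r' k h).1 h3, fun j hj h5 => h4 j hj ?_⟩
      · rw [← h i (by omega)]
        exact h2 i hi
      · exact (hPc r r' j fun i hi => h i (by omega)).2 h5
    exact fun k r r' h => ⟨h1 k r r' h, h1 k r' r fun i hi => (h i hi).symm⟩
  have hAm : ∀ k, MeasurableSet (A k) := fun k => meas_of_dep (hAd k)
  have hdis : Pairwise (Function.onFun Disjoint A) := by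
    intro j k hjk
    rw [Function.onFun, Set.disjoint_left]
    rintro r ⟨_, h1, h2⟩ ⟨_, h3, h4⟩
    rcases lt_or_gt_of_ne hjk with h | h
    · exact h4 j h h1
    · exact h2 k h h3
  have hE : {r | r ∈ cyl σ s ∧ ∃ k, s ≤ k ∧ mu ℕ (cyl r k) ≤ 2 * mu ℕ (cyl r k ∩ U)} =
      ⋃ k, A k := by
    ext r
    simp only [mem_setOf_eq, mem_iUnion]
    constructor
    · rintro ⟨h1, h2⟩
      have h2' : ∃ k, Pk r k := h2
      exact ⟨Nat.find h2', h1, Nat.find_spec h2', fun j hj => Nat.find_min h2' hj⟩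
    · rintro ⟨k, h1, h2, _⟩
      exact ⟨h1, k, h2⟩
  rw [hE, measure_iUnion hdis hAm]
  calc ∑' k, mu ℕ (A k) ≤ ∑' k, 2 * mu ℕ (A k ∩ U) := by
        apply ENNReal.tsum_le_tsum
        intro k
        exact half_of_dep (hAd k) hU fun r hr => hr.2.1.2
    _ = 2 * ∑' k, mu ℕ (A k ∩ U) := ENNReal.tsum_mul_left
    _ = 2 * mu ℕ (⋃ k, (A k ∩ U)) := by
        rw [measure_iUnion]
        · intro j k hjk
          exact (hdis hjk).mono inter_subset_left inter_subset_left
        · exact fun k => (hAm k).inter hU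
    _ ≤ 2 * mu ℕ (cyl σ s ∩ U) := by
        gcongr
        intro r hr
        obtain ⟨k, hk⟩ := mem_iUnion.1 hr
        exact ⟨hk.1.1, hk.2⟩

theorem dm3 : S_DM3 := by
  classical
  intro T hT hpos s
  have hbm := bms
  -- a good level
  have hlim : Filter.Tendsto (fun n => mu ℕ (lev T n)) Filter.atTop (nhds (mu ℕ (body T))) := by
    rw [hbm.2.2.1 T]
    apply tendsto_measure_iInter_atTop
    · exact fun n => (hbm.1 T n).nullMeasurableSet
    · intro m n h
      exact lev_anti hT h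
    · exact ⟨0, measure_ne_top _ _⟩
  have hlt : mu ℕ (body T) < 2 * mu ℕ (body T) := by
    rw [two_mul]
    exact ENNReal.lt_add_right (measure_ne_top _ _) hpos.ne'
  obtain ⟨n, hn, hsn⟩ := ((hlim.eventually_lt_const hlt).and (Filter.eventually_ge_atTop s)).exists
  have hdep : Dep (lev T n) n := fun r r' h => lev_dep T n r r' h
  have hbl : ∀ m, body T ⊆ lev T m := fun m r hr => hr m
  by_contra hcon
  have h1 : ∀ y ∈ wds (lev T n) n, 2 * mu ℕ (cyl (wx y) n ∩ body T) < mu ℕ (cyl (wx y) n) := by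
    intro y hy
    by_contra hc
    rw [not_lt] at hc
    apply hcon
    refine ⟨wx y, n, hsn, (Finset.mem_filter.1 hy).2, fun m hm => ?_⟩
    unfold Half
    refine hc.trans ?_
    gcongr
    exact hbl m
  have hne : (wds (lev T n) n).Nonempty := by
    have h2 : (body T).Nonempty := by
      by_contra h3
      rw [not_nonempty_iff_eq_empty] at h3
      rw [h3] at hpos
      simp at hpos
    obtain ⟨r, hr⟩ := h2
    refine ⟨fun i : Fin n => r i, Finset.mem_filter.2 ⟨Finset.mem_univ _, ?_⟩⟩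
    refine (hdep r _ fun i hi => ?_).1 (hbl n hr)
    show r i = if hi : i < n then r i else false
    rw [dif_pos hi]
  have h4 := ENNReal.sum_lt_sum_of_nonempty hne h1
  rw [← Finset.mul_sum, ← mu_decomp hdep (hbm.2.1 T), ← mu_decomp' hdep,
    inter_eq_right.2 (hbl n)] at h4
  exact absurd (hn.trans h4) (lt_irrefl _)

end H16.RF
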