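import Pool.Agent.H46.RF.Stm

set_option autoImplicit false

namespace H16.RF

open ZFSet (pair)
open MeasureTheory H14.ES H46.RF Set
open scoped ENNReal

theorem ini_congr {r r' : ℕ → Bool} : ∀ {m : ℕ}, (∀ i < m, r i = r' i) → ini r m = ini r' m
  | 0, _ => rfl
  | m + 1, h => by
    have h1 := ini_congr (m := m) fun i hi => h i (by omega)
    show insert (pair _ (bz (r m))) (ini r m) = insert (pair _ (bz (r' m))) (ini r' m)
    rw [h1, h m (by omega)]

theorem meas_of_dep {A : Set (ℕ → Bool)} {m : ℕ}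
    (h : ∀ r r', (∀ i < m, r i = r' i) → (r ∈ A ↔ r' ∈ A)) : MeasurableSet A := by
  classical
  let π : (ℕ → Bool) → (Fin m → Bool) := fun r i => r i
  let e : (Fin m → Bool) → (ℕ → Bool) := fun y i => if hi : i < m then y ⟨i, hi⟩ else false
  have hπ : Measurable π := measurable_pi_iff.2 fun i => measurable_pi_apply _
  have : A = π ⁻¹' {y | e y ∈ A} := by
    ext r
    show r ∈ A ↔ e (π r) ∈ A
    apply h
    intro i hi
    show r i = if hi : i < m then r i else false
    rw [dif_pos hi]
  rw [this]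
  exact hπ (Set.toFinite _).measurableSet

theorem lev_dep (T : ZFSet.{0}) (m : ℕ) (r r' : ℕ → Bool) (h : ∀ i < m, r i = r' i) :
    r ∈ lev T m ↔ r' ∈ lev T m := by
  show ini r m ∈ T ↔ ini r' m ∈ T
  rw [ini_congr h]

theorem lev_anti {T : ZFSet.{0}} (hT : IsTree T) {m n : ℕ} (h : m ≤ n) : lev T n ⊆ lev T m := by
  induction n, h using Nat.le_induction with
  | base => exact subset_rfl
  | succ n _ ih => exact fun r hr => ih (hT.down r n hr)

theorem coin_singleton (b : Bool) : coin {b} = 2⁻¹ := by
  unfold coin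
  cases b <;> simp

theorem cyl_eq_pi (r : ℕ → Bool) (k : ℕ) :
    cyl r k = Set.pi ((Finset.range k : Finset ℕ) : Set ℕ) fun i => {r i} := by
  ext x
  simp [cyl, Set.mem_pi]

theorem mu_cyl (r : ℕ → Bool) (k : ℕ) : mu ℕ (cyl r k) = (2 ^ k)⁻¹ := by
  rw [cyl_eq_pi]
  unfold mu
  rw [Measure.infinitePi_pi (fun _ : ℕ => coin) (fun i _ => measurableSet_singleton _)]
  simp only [coin_singleton, Finset.prod_const, Finset.card_range]
  rw [ENNReal.inv_pow]

theorem bms : S_BMS := by
  refine ⟨fun T m => meas_of_dep (lev_dep T m), ?_, ?_, fun T hT m n h => lev_anti hT h,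
    fun T m r r' h => lev_dep T m r r' h, ?_, mu_cyl⟩
  · intro T
    have : body T = ⋂ m, lev T m := by
      ext r; simp [body, lev]
    rw [this]
    exact MeasurableSet.iInter fun m => meas_of_dep (lev_dep T m)
  · intro T
    ext r; simp [body, lev]
  · intro r k
    refine meas_of_dep (m := k) fun x y h => ?_
    show (∀ i < k, x i = r i) ↔ ∀ i < k, y i = r i
    constructor
    · intro h1 i hi
      rw [← h i hi]
      exact h1 i hi
    · intro h1 i hi
      rw [h i hi]
      exact h1 i hi

end H16.RF
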